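import Pool.Agent.Lib.MP_1bbcfd_lc.Proof

namespace Pool.Agent.Results.MP_1bbcfd_lc.NoPolyAlg

open Pool.Agent.Lib.MP_1bbcfd_lc

/-- No oracle algorithm, deterministic or randomised, with polynomially many calls to the
independence oracles finds a maximum-weight `k`-element subset of a common base of two matroids,
not even with inverse-polynomial success probability. -/
theorem result : ¬ ∃ (A : OracleAlgorithm) (p : Polynomial ℕ),
    ∀ (n : ℕ) (M₁ M₂ : Matroid (Fin n)) (w : Fin n → ℚ) (k : ℕ),
      M₁.E = Set.univ → M₂.E = Set.univ → (∀ e, 0 ≤ w e) →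
      (∃ B : Finset (Fin n), M₁.IsBase (B : Set (Fin n)) ∧ M₂.IsBase (B : Set (Fin n)) ∧
        k ≤ B.card) →
      A.seeds n w k + 1 ≤ p.eval (inputSize n w) *
        Set.ncard {ρ : Fin (A.seeds n w k + 1) | ∃ X : Finset (Fin n),
          run (A.proc n w k ρ) (oracle M₁ M₂) (p.eval (inputSize n w)) [] = some X ∧
            Optimal M₁ M₂ w k X} :=
  main

end Pool.Agent.Results.MP_1bbcfd_lc.NoPolyAlg
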