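import Pool.Agent.Lib.MP_1bbcfd_lc.PT.Main

set_option autoImplicit false

namespace Pool.Agent.Results.MP_1bbcfd_lc.Scheme

open Pool.Agent.Lib.MP_1bbcfd_lc

/-- A deterministic approximation scheme with polynomially many oracle calls. -/
theorem result (ε : ℝ) (hε : 0 < ε) :
    ∃ (A : (n : ℕ) → (Fin n → ℚ) → ℕ → Procedure (Fin n)) (p : Polynomial ℕ),
      ∀ (n : ℕ) (M₁ M₂ : Matroid (Fin n)) (w : Fin n → ℚ) (k : ℕ),
        M₁.E = Set.univ → M₂.E = Set.univ → (∀ e, 0 ≤ w e) →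
        (∃ B : Finset (Fin n), M₁.IsBase (B : Set (Fin n)) ∧ M₂.IsBase (B : Set (Fin n)) ∧
          k ≤ B.card) →
        ∃ X : Finset (Fin n), run (A n w k) (oracle M₁ M₂) (p.eval n) [] = some X ∧
          Feasible M₁ M₂ k X ∧ ∀ Y : Finset (Fin n), Feasible M₁ M₂ k Y →
            (1 - ε) * ((∑ e ∈ Y, w e : ℚ) : ℝ) ≤ ((∑ e ∈ X, w e : ℚ) : ℝ) :=
  PT.main ε hε

end Pool.Agent.Results.MP_1bbcfd_lc.Scheme
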